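import Pool.Agent.T9h30.PG.Red

/-!
# Points of prime order have integral coordinates away from the residue characteristic
-/

set_option autoImplicit false
set_option linter.unusedSectionVars false

namespace Pool.Agent.T9h30.TP

open NumberField IsDedekindDomain WeierstrassCurve
open Pool.Agent.T9h30.PG
open Pool.Agent.N890.US Pool.Agent.TH954
open Pool.Agent.TH910.LS (av av_na av_le_one av_lt_one Inert gal sig sig_eq eqv eqv_zero eqv_some
  sw_bc)
open Pool.Agent.TH942 (sw SPt)

/-- torsion of prime order -/
theorem ntor {L : Type} [NormedField L] [IsUltrametricDist L] [DecidableEq L]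
    {W : WeierstrassCurve L} (hW : SI W) (h2 : ‖(2 : L)‖ = 1) (l : ℕ) (hl : l.Prime)
    (hln : ‖(l : L)‖ = 1) (x y : L) (h : W.toAffine.Nonsingular x y)
    (hT0 : l • (Affine.Point.some x y h) = 0) : ‖x‖ ≤ 1 := by
  rcases hl.eq_two_or_odd with rfl | ho
  · have h20 : (2 : L) ≠ 0 := by
      intro h0
      rw [h0, norm_zero] at h2
      exact zero_ne_one h2
    rw [two_nsmul, add_eq_zero_iff_eq_neg, hW.1.neg_some] at hT0
    have hy : y = -y := ((Affine.Point.some.injEq _ _ _ _ _ _).mp hT0).2
    have hy0 : y = 0 := by
      have : (2 : L) * y = 0 := by linear_combination hy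
      exact (mul_eq_zero.1 this).resolve_left h20
    by_contra hx
    rw [not_le] at hx
    have he := hW.norm_y_eq h hx
    rw [hy0, norm_zero, zero_pow two_ne_zero] at he
    have h3 : 0 < ‖x‖ ^ 3 := pow_pos (by linarith) 3
    linarith
  · refine NTOR.main hW h2 l hl ?_ hln x y h hT0
    rcases hl.two_le.lt_or_eq with h | h
    · exact h
    · rw [← h] at ho
      norm_num at ho

/-- torsion prime to the residue characteristic is integral -/
theorem tors_int {M : Type} [Field M] [NumberField M] [DecidableEq M]
    {w : HeightOneSpectrum (𝓞 M)} {a b : M} (ha : av w a ≤ 1)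
    (hb : av w b ≤ 1) (h2 : av w 2 = 1) {p : ℕ} (hp : p.Prime)
    (hpw : av w (p : M) = 1) {x y : M}
    (h : (sw a b).toAffine.Nonsingular x y) (hT : p • (Affine.Point.some x y h : SPt a b) = 0) :
    av w x ≤ 1 := by
  let _ : NormedField M := (av w).toNormedField
  have hu : IsUltrametricDist M := by
    constructor
    intro x y z
    rw [dist_eq_norm, dist_eq_norm, dist_eq_norm]
    show av w (x - z) ≤ max (av w (x - y)) (av w (y - z))
    have e : x - z = (x - y) + (y - z) := by ring
    rw [e]
    exact av_na w _ _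
  exact ntor (L := M) (W := sw a b) ⟨⟨rfl, rfl, rfl⟩, ha, hb⟩ h2 p hp hpw x y h hT

end Pool.Agent.T9h30.TP
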