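import Pool.Agent.T9h30.PG.Pts
import Pool.Agent.T9h30.TP.Red

/-!
# The action of Galois groups on points of order `p`
-/

set_option autoImplicit false
set_option linter.unusedSectionVars false

namespace Pool.Agent.T9h30.TP

open Pool.Agent.T9h30.PG

open NumberField IsDedekindDomain WeierstrassCurve
open Pool.Agent.T9h30.BT
open Pool.Agent.TH910.LS (av av_na av_le_one av_lt_one Inert gal sig sig_eq eqv eqv_zero eqv_some
  sw_bc)
open Pool.Agent.TH942 (sw SPt)
open Pool.Agent.H901R3.MS (Place CV Pt Disc)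
open Pool.Agent.Y213.EC (IsRd exists_red exists_map)

section defs

variable {K : Type} [Field K]

variable {a b : K} {M M' M'' : Type} [Field M] [Field M'] [Field M''] [Algebra K M] [Algebra K M']
  [Algebra K M''] [DecidableEq M] [DecidableEq M'] [DecidableEq M'']

attribute [local instance] actE

end defs

section red

variable {K M : Type} [Field K] [NumberField K] [Field M] [NumberField M] [Algebra K M]
  [DecidableEq M] {a b : 𝓞 K}

attribute [local instance] actE

variable {p : ℕ} {w : HeightOneSpectrum (𝓞 M)}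

/-- **Inertia and points of order `p`.** -/
theorem inert_tors (h : Gp a b p w) (hp : p.Prime) {s : M ≃ₐ[K] M} (hs : s ∈ In w)
    (P : EP (a : K) (b : K) M) (hP : p • (s • P - P) = 0) : s • P = P := by
  by_contra hcon
  have h2 : tr a b M P - gal s (tr a b M P) = tr a b M (P - s • P) := by
    rw [gal_tr, map_sub]
  have h3 : tr a b M P - gal s (tr a b M P) ≠ 0 := by
    rw [h2, Ne, EmbeddingLike.map_eq_zero_iff, sub_eq_zero]
    exact fun h => hcon h.symm
  obtain ⟨x, y, hxy, h4, h5⟩ := Pool.Agent.TH910.LS.inert_point (a := a) (b := b)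
    (s := s) (fun z => (w.valuation_lt_one_iff_mem (s • z - z)).2 (hs z)) h.two h.delta
    (tr a b M P) h3
  have h6 : p • (Affine.Point.some x y hxy : SPt (algebraMap K M (a : K)) (algebraMap K M (b : K))) =
      0 := by
    rw [← h4, h2, ← map_nsmul, ← neg_sub, smul_neg, hP, neg_zero, map_zero]
  have h7 := tors_int (av_alg a) (av_alg b) h.two hp h.chr hxy h6
  exact absurd h5 (not_lt.2 h7)

/-- **The points of order `p` fixed by a Frobenius automorphism.** -/
theorem frb_tors (h : Gp a b p w) (hp : p.Prime) {φ : M ≃ₐ[K] M} (hφ : Frb w φ)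
    {T : EP (a : K) (b : K) M} (hT : p • T = 0) (hφT : φ • T = T) (hT0 : T ≠ 0) :
    p ∣ pp a b (lo (K := K) w) + 1 := by
  classical
  match T, hT, hφT, hT0 with
  | .zero, _, _, hT0 => exact absurd rfl hT0
  | .some x y hxy, hT, hφT, hT0 =>
    set v := lo (K := K) w with hv
    have hfinv : Finite (𝓞 K ⧸ v.asIdeal) := Ideal.finiteQuotientOfFreeOfNeBot _ v.ne_bot
    have hmax : v.asIdeal.IsMaximal := v.isMaximal
    let _ : Field (𝓞 K ⧸ v.asIdeal) := Ideal.Quotient.field _
    have hq : Nat.card (𝓞 K ⧸ v.asIdeal) = Ideal.absNorm v.asIdeal := rfl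
    -- the map of the residue fields
    let f : 𝓞 K ⧸ v.asIdeal →+* RF w := Ideal.Quotient.lift v.asIdeal
      ((rmap w).comp (algebraMap (𝓞 K) (𝓞 M))) (fun x hx => by
        rw [RingHom.comp_apply, rmap_zero]
        exact mem_lo.1 hx)
    have hf : ∀ z : 𝓞 K, f (Ideal.Quotient.mk _ z) = (plc w).r (algebraMap K M (z : K)) := by
      intro z
      rw [int_alg]
      rfl
    -- the conditions
    have hxw : av w x ≤ 1 := by
      refine tors_int (av_alg a) (av_alg b) h.two hp h.chr (x := x) (y := y)
        (ns_sw hxy) ?_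
      rw [← tr_some hxy, ← map_nsmul, hT, map_zero]
    have hxA : x ∈ (plc w).A := mem_A.2 (av_le_one.1 hxw)
    obtain ⟨h', h1⟩ := mp_some (a := (a : K)) (b := (b : K)) (φ : M →ₐ[K] M) hxy
    have hφT' : φ x = x ∧ φ y = y := (Affine.Point.some.injEq _ _ _ _ _ _).mp (h1.symm.trans hφT)
    -- reduction
    have hcv : ((cv (a : K) (b : K)).baseChange M) = CV (algebraMap K M (a : K)) (algebraMap K M b) := by
      unfold WeierstrassCurve.baseChange
      rw [cv_map]
      rfl
    have hdv : Disc (Ideal.Quotient.mk v.asIdeal a) (Ideal.Quotient.mk v.asIdeal b) := by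
      intro h3
      apply h.disc
      rw [← Ideal.Quotient.eq_zero_iff_mem]
      simp only [map_add, map_mul, map_pow, map_ofNat]
      exact h3
    have hdR : Disc (f (Ideal.Quotient.mk v.asIdeal a)) (f (Ideal.Quotient.mk v.asIdeal b)) := by
      intro h3
      apply hdv
      apply f.injective
      rw [map_zero]
      simp only [map_add, map_mul, map_pow, map_ofNat]
      exact h3
    obtain ⟨red, hr1, hr2, hr3⟩ := exists_red (plc w) (a := algebraMap K M (a : K))
      (b := algebraMap K M (b : K)) (a' := f (Ideal.Quotient.mk v.asIdeal a))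
      (b' := f (Ideal.Quotient.mk v.asIdeal b)) (mem_A.2 (av_le_one.1 (av_alg a)))
      (mem_A.2 (av_le_one.1 (av_alg b))) (hf a).symm (hf b).symm hdR
    have hxy' : (CV (algebraMap K M (a : K)) (algebraMap K M b)).toAffine.Nonsingular x y :=
      ns_sw hxy
    obtain ⟨hyA, g, hg⟩ := hr3 x y hxy' hxA
    have hTp : p • (Affine.Point.some x y hxy' :
        Pt (algebraMap K M (a : K)) (algebraMap K M (b : K))) = 0 := by
      show p • (Affine.Point.some x y (ns_sw hxy) :
        SPt (algebraMap K M (a : K)) (algebraMap K M (b : K))) = 0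
      rw [← tr_some hxy, ← map_nsmul, hT, map_zero]
    -- the coordinates
    obtain ⟨x₀, hx₀⟩ := frob_fix f (z := (plc w).r x) (by
      rw [hq, ← (frb_r hφ (mem_A.1 hxA)).2, hφT'.1])
    obtain ⟨y₀, hy₀⟩ := frob_fix f (z := (plc w).r y) (by
      rw [hq, ← (frb_r hφ (mem_A.1 hyA)).2, hφT'.2])
    obtain ⟨j, hj⟩ := exists_map f (a := Ideal.Quotient.mk v.asIdeal a)
      (b := Ideal.Quotient.mk v.asIdeal b) rfl rfl hdR
    have heq : Pool.Agent.H901R3.MS.Eqn (Ideal.Quotient.mk v.asIdeal a)
        (Ideal.Quotient.mk v.asIdeal b) x₀ y₀ := by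
      have h4 := Pool.Agent.H901R3.MS.eqn_of g
      unfold Pool.Agent.H901R3.MS.Eqn at h4 ⊢
      apply f.injective
      rw [map_pow, map_add, map_add, map_mul, map_pow, hx₀, hy₀]
      exact h4
    have hns := (Pool.Agent.H901R3.MS.nonsingular_iff hdv).2 heq
    obtain ⟨g', hg'⟩ := hj x₀ y₀ hns
    have hred : red (Affine.Point.some x y hxy') = j (Affine.Point.some x₀ y₀ hns) := by
      rw [hg, hg']
      congr 1
      · exact hx₀.symm
      · exact hy₀.symm
    have hjinj : ∀ P : Pt (Ideal.Quotient.mk v.asIdeal a) (Ideal.Quotient.mk v.asIdeal b),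
        j P = 0 → P = 0 := by
      intro P hP
      match P, hP with
      | .zero, _ => rfl
      | .some x y h, hP =>
        obtain ⟨g'', hg''⟩ := hj x y h
        rw [hg''] at hP
        exact absurd hP (Affine.Point.some_ne_zero _)
    set T₀ : Pt (Ideal.Quotient.mk v.asIdeal a) (Ideal.Quotient.mk v.asIdeal b) :=
      Affine.Point.some x₀ y₀ hns with hT₀
    have hT₀p : p • T₀ = 0 := by
      apply hjinj
      rw [map_nsmul, ← hred, ← map_nsmul, hTp, map_zero]
    have hT₀0 : T₀ ≠ 0 := Affine.Point.some_ne_zero _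
    obtain ⟨hfin, hcard⟩ := card_pt hdv
    have hfp : Fact p.Prime := ⟨hp⟩
    have h5 := addOrderOf_eq_prime hT₀p hT₀0
    have h6 := addOrderOf_dvd_natCard T₀
    rw [h5, hcard] at h6
    exact h6

end red

end Pool.Agent.T9h30.TP
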