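import Pool.Agent.T9h30.PG.Adq
import Pool.Agent.T9h30.TP.Pts

/-!
# Places whose Frobenius automorphism has no fixed points of order `p`, every prime `p`
-/

set_option autoImplicit false
set_option linter.unusedSectionVars false

namespace Pool.Agent.T9h30.TP

open NumberField IsDedekindDomain WeierstrassCurve
open Pool.Agent.T9h30.BT
open Pool.Agent.T9h30.PG hiding tors_int frb_tors inert_tors
open Pool.Agent.T9h30.PG.TOR
open Pool.Agent.TH910.LS (av av_na av_le_one av_lt_one eqv eqv_zero eqv_some)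
open Pool.Agent.TH942 (sw SPt)
open Pool.Agent.H901R3.MS (Place CV Pt Disc eqn_of)
open Pool.Agent.Y213.EC (IsRd exists_red exists_map)

section cnt

variable {F : Type} [Field F] {a b : F} [IsAlgClosed F]

open scoped Classical in
/-- the number of points of order dividing `n` -/
theorem card_torsion1 (hD : Disc a b) {n : ℕ} (hn : 1 ≤ n) :
    {P : Pt a b | n • P = 0}.Finite ∧ {P : Pt a b | n • P = 0}.ncard ≤ 2 * n ^ 2 - 1 := by
  obtain ⟨U, V, hcop, hU, hV, hmul⟩ := mulp hD n hn
  have hn2 : 1 ≤ n ^ 2 := Nat.one_le_pow _ _ hn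
  have hV0 : V ≠ 0 := by
    rintro rfl
    rw [isCoprime_zero_right] at hcop
    have := Polynomial.natDegree_eq_zero_of_isUnit hcop
    omega
  set G : Finset (F × F) := V.roots.toFinset.biUnion
    (fun x => (Polynomial.nthRoots 2 (x ^ 3 + a * x + b)).toFinset.image (fun y => (x, y))) with hG
  have hGc : G.card ≤ 2 * (n ^ 2 - 1) := by
    calc G.card ≤ ∑ x ∈ V.roots.toFinset,
          ((Polynomial.nthRoots 2 (x ^ 3 + a * x + b)).toFinset.image (fun y => (x, y))).card :=
          Finset.card_biUnion_le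
      _ ≤ ∑ x ∈ V.roots.toFinset, 2 := Finset.sum_le_sum fun x _ =>
          Finset.card_image_le.trans ((Multiset.toFinset_card_le _).trans
            (Polynomial.card_nthRoots _ _))
      _ = V.roots.toFinset.card * 2 := by rw [Finset.sum_const, smul_eq_mul]
      _ ≤ (n ^ 2 - 1) * 2 := by
          refine Nat.mul_le_mul_right _ ?_
          have := (Multiset.toFinset_card_le V.roots).trans (Polynomial.card_roots' V)
          omega
      _ = 2 * (n ^ 2 - 1) := mul_comm _ _
  have hsub : ckey '' {P : Pt a b | n • P = 0} ⊆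
      ((insert none (G.image some) : Finset (Option (F × F))) : Set (Option (F × F))) := by
    rintro _ ⟨P, hP, rfl⟩
    rcases P with _ | ⟨x, y, h⟩
    · rw [Finset.mem_coe]
      exact Finset.mem_insert_self _ _
    · rw [Finset.mem_coe]
      refine Finset.mem_insert_of_mem (Finset.mem_image_of_mem _ ?_)
      obtain ⟨μ, hμ, _, h2⟩ := hmul x y h
      have h3 : n • (Affine.Point.some x y h : Pt a b) = 0 := hP
      rw [h3] at h2
      have h4 : (0 : F) = μ * V.eval x := h2
      have h5 : V.eval x = 0 := (mul_eq_zero.1 h4.symm).resolve_left hμ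
      rw [hG, Finset.mem_biUnion]
      refine ⟨x, ?_, ?_⟩
      · rw [Multiset.mem_toFinset, Polynomial.mem_roots hV0]
        exact h5
      · refine Finset.mem_image_of_mem _ ?_
        rw [Multiset.mem_toFinset, Polynomial.mem_nthRoots (by norm_num)]
        exact eqn_of h
  have hfin : {P : Pt a b | n • P = 0}.Finite :=
    Set.Finite.of_finite_image ((Finset.finite_toSet _).subset hsub) ckey_inj.injOn
  refine ⟨hfin, ?_⟩
  have h1 : {P : Pt a b | n • P = 0}.ncard = (ckey '' {P : Pt a b | n • P = 0}).ncard :=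
    (Set.ncard_image_of_injective _ ckey_inj).symm
  rw [h1]
  refine (Set.ncard_le_ncard hsub (Finset.finite_toSet _)).trans ?_
  rw [Set.ncard_coe_finset]
  refine (Finset.card_insert_le _ _).trans ?_
  have := Finset.card_image_le (s := G) (f := some)
  omega


end cnt

section grp

lemma surj_card1 {V B C : Type} [AddCommGroup V] [AddCommGroup B] [AddCommGroup C] {p : ℕ}
    (hp : p.Prime) (f : V →+ B) (g : B →+ C)
    (hf : ∀ x, p • x = 0 → f x = 0 → x = 0) (hg : ∀ x, p • x = 0 → g x = 0 → x = 0)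
    (hV : p ^ 2 ≤ {x : V | p • x = 0}.ncard) (hC : {x : C | p • x = 0}.Finite)
    (hC2 : {x : C | p • x = 0}.ncard ≤ 2 * p ^ 2 - 1) (y : B) (hy : p • y = 0) :
    ∃ x : V, p • x = 0 ∧ f x = y := by
  have hgi : Set.InjOn g {x : B | p • x = 0} := by
    intro x hx y hy hxy
    have h1 : p • (x - y) = 0 := by
      rw [smul_sub, show p • x = 0 from hx, show p • y = 0 from hy, sub_zero]
    have h2 := hg (x - y) h1 (by rw [map_sub, hxy, sub_self])
    exact sub_eq_zero.1 h2
  have hfi : Set.InjOn f {x : V | p • x = 0} := by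
    intro x hx y hy hxy
    have h1 : p • (x - y) = 0 := by
      rw [smul_sub, show p • x = 0 from hx, show p • y = 0 from hy, sub_zero]
    have h2 := hf (x - y) h1 (by rw [map_sub, hxy, sub_self])
    exact sub_eq_zero.1 h2
  have hBC : g '' {x : B | p • x = 0} ⊆ {x : C | p • x = 0} := by
    rintro _ ⟨x, hx, rfl⟩
    show p • g x = 0
    rw [← map_nsmul, show p • x = 0 from hx, map_zero]
  have hBf : {x : B | p • x = 0}.Finite := Set.Finite.of_finite_image (hC.subset hBC) hgi
  have hB1 : {x : B | p • x = 0}.ncard ≤ 2 * p ^ 2 - 1 := by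
    rw [← hgi.ncard_image]
    exact (Set.ncard_le_ncard hBC hC).trans hC2
  have hBf' : Finite (tsb p B) := hBf.to_subtype
  have hcard : Nat.card (tsb p B) = {x : B | p • x = 0}.ncard := Nat.card_coe_set_eq _
  have hB2 : {x : B | p • x = 0}.ncard ≤ p ^ 2 := by
    rw [← hcard]
    refine card_sq hp (fun x => Subtype.ext x.2) ?_
    rw [hcard]
    have h5 : 0 < p ^ 2 := pow_pos hp.pos 2
    have h6 : 2 * p ^ 2 ≤ p * p ^ 2 := Nat.mul_le_mul_right _ hp.two_le
    have h7 : p * p ^ 2 = p ^ 3 := by ring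
    omega
  have hsub : f '' {x : V | p • x = 0} ⊆ {x : B | p • x = 0} := by
    rintro _ ⟨x, hx, rfl⟩
    show p • f x = 0
    rw [← map_nsmul, show p • x = 0 from hx, map_zero]
  have heq := Set.eq_of_subset_of_ncard_le hsub (by
    rw [hfi.ncard_image]
    exact hB2.trans hV) hBf
  have hy' : y ∈ f '' {x : V | p • x = 0} := by
    rw [heq]
    exact hy
  obtain ⟨x, hx, hxy⟩ := hy'
  exact ⟨x, hx, hxy⟩

end grp

section red

variable {K M : Type} [Field K] [NumberField K] [Field M] [NumberField M] [Algebra K M]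
  [DecidableEq M] {a b : 𝓞 K} {p : ℕ} {w : HeightOneSpectrum (𝓞 M)}

attribute [local instance] actE

/-- **No fixed points of order `p`: the place is admissible.** -/
theorem adp_frb1 (h : Gp a b p w) (hp : p.Prime) {φ : M ≃ₐ[K] M} (hφ : Frb w φ)
    (hcard : p ^ 2 ≤ {T : EP (a : K) (b : K) M | p • T = 0}.ncard)
    (hfix : ∀ T : EP (a : K) (b : K) M, p • T = 0 → φ • T = T → T = 0) :
    ¬ p ∣ pp a b (lo (K := K) w) + 1 := by
  classical
  intro hd
  set v := lo (K := K) w with hv
  have hfinv : Finite (𝓞 K ⧸ v.asIdeal) := Ideal.finiteQuotientOfFreeOfNeBot _ v.ne_bot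
  have hmax : v.asIdeal.IsMaximal := v.isMaximal
  let _ : Field (𝓞 K ⧸ v.asIdeal) := Ideal.Quotient.field _
  have hq : Nat.card (𝓞 K ⧸ v.asIdeal) = Ideal.absNorm v.asIdeal := rfl
  -- the map of the residue fields
  let f : 𝓞 K ⧸ v.asIdeal →+* RF w := Ideal.Quotient.lift v.asIdeal
    ((rmap w).comp (algebraMap (𝓞 K) (𝓞 M))) (fun x hx => by
      rw [RingHom.comp_apply, rmap_zero]
      exact mem_lo.1 hx)
  have hf : ∀ z : 𝓞 K, f (Ideal.Quotient.mk _ z) = (plc w).r (algebraMap K M (z : K)) := by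
    intro z
    rw [int_alg]
    rfl
  have hdv : Disc (Ideal.Quotient.mk v.asIdeal a) (Ideal.Quotient.mk v.asIdeal b) := by
    intro h3
    apply h.disc
    rw [← Ideal.Quotient.eq_zero_iff_mem]
    simp only [map_add, map_mul, map_pow, map_ofNat]
    exact h3
  have hdR : Disc (f (Ideal.Quotient.mk v.asIdeal a)) (f (Ideal.Quotient.mk v.asIdeal b)) := by
    intro h3
    apply hdv
    apply f.injective
    rw [map_zero]
    simp only [map_add, map_mul, map_pow, map_ofNat]
    exact h3
  obtain ⟨red, hr1, hr2, hr3⟩ := exists_red (plc w) (a := algebraMap K M (a : K))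
    (b := algebraMap K M (b : K)) (a' := f (Ideal.Quotient.mk v.asIdeal a))
    (b' := f (Ideal.Quotient.mk v.asIdeal b)) (mem_A.2 (av_le_one.1 (av_alg a)))
    (mem_A.2 (av_le_one.1 (av_alg b))) (hf a).symm (hf b).symm hdR
  obtain ⟨j, hj⟩ := exists_map f (a := Ideal.Quotient.mk v.asIdeal a)
    (b := Ideal.Quotient.mk v.asIdeal b) rfl rfl hdR
  -- the algebraic closure of the residue field
  let Ω := AlgebraicClosure (RF w)
  let i : RF w →+* Ω := algebraMap (RF w) Ω
  have hdΩ : Disc (i (f (Ideal.Quotient.mk v.asIdeal a))) (i (f (Ideal.Quotient.mk v.asIdeal b))) := by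
    intro h3
    apply hdR
    apply i.injective
    rw [map_zero]
    simp only [map_add, map_mul, map_pow, map_ofNat]
    exact h3
  obtain ⟨g, hg⟩ := exists_map i (a := f (Ideal.Quotient.mk v.asIdeal a))
    (b := f (Ideal.Quotient.mk v.asIdeal b)) rfl rfl hdΩ
  have hinj : ∀ {k k' : Type} [Field k] [Field k'] [DecidableEq k] [DecidableEq k'] {α β : k}
      {α' β' : k'} (e : k → k') (G : Pt α β →+ Pt α' β') (_ : ∀ (x y : k)
        (h : (CV α β).toAffine.Nonsingular x y), ∃ g : (CV α' β').toAffine.Nonsingular (e x) (e y),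
          G (Affine.Point.some x y h) = Affine.Point.some _ _ g) (P : Pt α β), G P = 0 → P = 0 := by
    intro k k' _ _ _ _ α β α' β' e G hG P hP
    match P, hP with
    | .zero, _ => rfl
    | .some x y h, hP =>
      obtain ⟨g'', hg''⟩ := hG x y h
      rw [hg''] at hP
      exact absurd hP (Affine.Point.some_ne_zero _)
  -- reduction is injective on the points of order p
  have hrinj : ∀ P : Pt (algebraMap K M (a : K)) (algebraMap K M (b : K)), p • P = 0 →
      red P = 0 → P = 0 := by
    intro P hP hPr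
    match P, hP, hPr with
    | .zero, _, _ => rfl
    | .some x y hxy, hP, hPr =>
      have hxw : av w x ≤ 1 := tors_int (av_alg a) (av_alg b) h.two hp h.chr (x := x) (y := y)
        hxy hP
      obtain ⟨_, g'', hg''⟩ := hr3 x y hxy (mem_A.2 (av_le_one.1 hxw))
      rw [hg''] at hPr
      exact absurd hPr (Affine.Point.some_ne_zero _)
  -- the group
  let τ : EP (a : K) (b : K) M ≃+ Pt (algebraMap K M (a : K)) (algebraMap K M (b : K)) := tr a b M
  have hτs : ∀ {x y : M} (hxy : ((cv (a : K) (b : K)).baseChange M).toAffine.Nonsingular x y),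
      τ (Affine.Point.some x y hxy) = Affine.Point.some x y (ns_sw hxy) := fun hxy => tr_some hxy
  obtain ⟨hfΩ, hcΩ⟩ := card_torsion1 hdΩ (n := p) hp.one_lt.le
  have hV : p ^ 2 ≤ {x : Pt (algebraMap K M (a : K)) (algebraMap K M (b : K)) | p • x = 0}.ncard := by
    have e : {x : Pt (algebraMap K M (a : K)) (algebraMap K M (b : K)) | p • x = 0} =
        τ '' {T : EP (a : K) (b : K) M | p • T = 0} := by
      ext x
      constructor
      · intro hx
        refine ⟨τ.symm x, ?_, τ.apply_symm_apply x⟩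
        show p • τ.symm x = 0
        rw [← map_nsmul, show p • x = 0 from hx, map_zero]
      · rintro ⟨T, hT, rfl⟩
        show p • τ T = 0
        rw [← map_nsmul, show p • T = 0 from hT, map_zero]
    rw [e, Set.ncard_image_of_injective _ τ.injective]
    exact hcard
  -- a point of order p
  obtain ⟨hfin, hcd⟩ := card_pt hdv
  have hfp : Fact p.Prime := ⟨hp⟩
  have hd' : p ∣ Nat.card (Pt (Ideal.Quotient.mk v.asIdeal a) (Ideal.Quotient.mk v.asIdeal b)) := by
    rw [hcd]
    exact hd
  obtain ⟨T₀, hT₀⟩ := exists_prime_addOrderOf_dvd_card' p hd'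
  have hT₀p : p • T₀ = 0 := by
    rw [← hT₀]
    exact addOrderOf_nsmul_eq_zero T₀
  have hT₀0 : T₀ ≠ 0 := by
    rintro rfl
    rw [addOrderOf_zero] at hT₀
    exact hp.one_lt.ne hT₀
  obtain ⟨Q, hQp, hQ⟩ := surj_card1 hp red g hrinj (fun x _ hx => hinj i g hg x hx) hV hfΩ hcΩ
    (j T₀) (by rw [← map_nsmul, hT₀p, map_zero])
  have hQ0 : Q ≠ 0 := by
    rintro rfl
    rw [map_zero] at hQ
    exact hT₀0 (hinj f j hj T₀ hQ.symm)
  obtain ⟨T, rfl⟩ := τ.surjective Q
  have hTp : p • T = 0 := by
    apply τ.injective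
    rw [map_nsmul, hQp, map_zero]
  have hT0 : T ≠ 0 := by
    rintro rfl
    exact hQ0 (map_zero _)
  apply hT0
  refine hfix T hTp ?_
  rw [← sub_eq_zero]
  apply τ.injective
  rw [map_zero]
  have hsp : p • (φ • T - T) = 0 := by
    rw [smul_sub, smul_comm, hTp, smul_zero, sub_zero]
  refine hrinj _ (by rw [← map_nsmul, hsp, map_zero]) ?_
  rw [map_sub, map_sub, sub_eq_zero]
  match T, hTp, hT0, hQ with
  | .zero, _, hT0, _ => exact absurd rfl hT0
  | .some x y hxy, hTp, _, hQ =>
    have hxw : av w x ≤ 1 := by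
      refine tors_int (av_alg a) (av_alg b) h.two hp h.chr (x := x) (y := y) (ns_sw hxy) ?_
      rw [← tr_some hxy, ← map_nsmul, hTp, map_zero]
    have hxA : x ∈ (plc w).A := mem_A.2 (av_le_one.1 hxw)
    rw [hτs] at hQ
    rw [hτs]
    obtain ⟨hyA, g1, hg1⟩ := hr3 x y (ns_sw hxy) hxA
    obtain ⟨h', h1⟩ := mp_some (a := (a : K)) (b := (b : K)) (φ : M →ₐ[K] M) hxy
    have h2 : φ • (Affine.Point.some x y hxy : EP (a : K) (b : K) M) =
      Affine.Point.some (φ x) (φ y) h' := h1
    obtain ⟨hx1, hx2⟩ := frb_r hφ (mem_A.1 hxA)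
    obtain ⟨hy1, hy2⟩ := frb_r hφ (mem_A.1 hyA)
    obtain ⟨_, g2, hg2⟩ := hr3 (φ x) (φ y) (ns_sw h') (mem_A.2 hx1)
    have h3 : τ (φ • (Affine.Point.some x y hxy : EP (a : K) (b : K) M)) =
        Affine.Point.some (φ x) (φ y) (ns_sw h') := by
      rw [h2]
      exact hτs h'
    rw [h3]
    -- the coordinates of the reduction
    have hcoord : (plc w).r x ^ Ideal.absNorm v.asIdeal = (plc w).r x ∧
        (plc w).r y ^ Ideal.absNorm v.asIdeal = (plc w).r y := by
      replace hQ := hg1.symm.trans hQ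
      match T₀, hQ with
      | .zero, hQ =>
        rw [show j Affine.Point.zero = 0 from map_zero j] at hQ
        exact absurd hQ (Affine.Point.some_ne_zero _)
      | .some x₀ y₀ h₀, hQ =>
        obtain ⟨g3, hg3⟩ := hj x₀ y₀ h₀
        rw [hg3] at hQ
        have h4 := (Affine.Point.some.injEq _ _ _ _ _ _).mp hQ
        let _ : Fintype (𝓞 K ⧸ v.asIdeal) := Fintype.ofFinite _
        have h5 : ∀ z : 𝓞 K ⧸ v.asIdeal, (f z) ^ Ideal.absNorm v.asIdeal = f z := by
          intro z
          rw [← map_pow, ← hq, Nat.card_eq_fintype_card, FiniteField.pow_card]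
        rw [h4.1, h4.2]
        exact ⟨h5 _, h5 _⟩
    refine hg2.trans (Eq.trans ?_ hg1.symm)
    congr 1
    · rw [hx2]
      exact hcoord.1
    · rw [hy2]
      exact hcoord.2

end red

end Pool.Agent.T9h30.TP
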