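import Pool.Agent.T9h30.PG.Fam
import Pool.Agent.T9h30.TP.Adq2

/-!
# Infinite families of prime numbers, every prime `p`
-/

set_option autoImplicit false
set_option linter.unusedSectionVars false

namespace Pool.Agent.T9h30.TP

open NumberField IsDedekindDomain Filter Topology WeierstrassCurve
open Pool.Agent.T9h30.BT
open Pool.Agent.T9h30.PG hiding tors_int frb_tors inert_tors
open Pool.Agent.K4H55.BI (gen gen_span gen_dvd gen_prime gen_inj gen_na IQ BF Fser)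

section dens

variable {K : Type} [Field K] [NumberField K]

attribute [local instance] actE

variable {J : Type} {a b : J → 𝓞 K} {p n N : ℕ} {Q : Finset ℕ} {M : Type} [Field M]
    [NumberField M] [Algebra K M] [DecidableEq M]

/-- **The automorphism.** -/
theorem Sg_pow1 (hp : p.Prime) {w : HeightOneSpectrum (𝓞 M)} {t : M ≃ₐ[K] M}
    (ht : Frb w t) (hA : ∀ j, Adp (a j) (b j) p (lo (K := K) w))
    (hpw : (p : 𝓞 K) ∉ (lo (K := K) w).asIdeal)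
    (hN : Ideal.absNorm (lo (K := K) w).asIdeal % p = 1) {ζ : 𝓞 M}
    (hζ : IsPrimitiveRoot ζ (p ^ N)) : Sg a b p (p ^ N) Q (t ^ p ^ (N + N)) := by
  have hn : NeZero (p ^ N) := ⟨pow_ne_zero _ hp.ne_zero⟩
  have hnw : ((p ^ N : ℕ) : 𝓞 K) ∉ (lo (K := K) w).asIdeal := by
    rw [Nat.cast_pow]
    exact fun h => hpw ((lo (K := K) w).isPrime.mem_of_pow_mem _ h)
  set c := Ideal.absNorm (lo (K := K) w).asIdeal with hc
  have h1 : ∀ (η : 𝓞 M), η ^ p ^ N = 1 → ∀ k : ℕ, t ^ k • η = η ^ c ^ k := by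
    intro η hη k
    induction k with
    | zero => rw [pow_zero, one_smul, pow_zero, pow_one]
    | succ k ih => rw [pow_succ', mul_smul, ih, smul_pw, frb_root hζ hnw ht hη, ← pow_mul, pow_succ']
  have h2 : ((p ^ N : ℕ) : ℤ) ∣ (c : ℤ) ^ p ^ N - 1 := by
    have h3 : (p : ℤ) ∣ (c : ℤ) - 1 := by
      have h4 := Nat.div_add_mod c p
      rw [hN] at h4
      refine ⟨((c / p : ℕ) : ℤ), ?_⟩
      have h5 : (c : ℤ) = p * ((c / p : ℕ) : ℤ) + 1 := by exact_mod_cast h4.symm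
      linarith
    have h4 := dvd_sub_pow_of_dvd_sub h3 N
    rw [one_pow] at h4
    refine dvd_trans ?_ h4
    push_cast
    exact pow_dvd_pow _ (Nat.le_succ N)
  have h3 : ∀ η : 𝓞 M, η ^ p ^ N = 1 → t ^ p ^ N • η = η := by
    intro η hη
    rw [h1 η hη]
    have h4 : (((c ^ p ^ N : ℕ) : ℤ) : ZMod (p ^ N)) = ((1 : ℤ) : ZMod (p ^ N)) := by
      rw [ZMod.intCast_eq_intCast_iff_dvd_sub, ← dvd_neg, neg_sub]
      push_cast at h2 ⊢
      exact h2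
    rw [Int.cast_natCast, Int.cast_one, ← Nat.cast_one, ZMod.natCast_eq_natCast_iff] at h4
    have h5 := pow_eq_pow_of_modEq h4 hη
    rw [h5, pow_one]
  have hpp : t ^ p ^ (N + N) = (t ^ p ^ N) ^ p ^ N := by rw [← pow_mul, ← pow_add]
  have hfix : ∀ η : 𝓞 M, t ^ p ^ N • η = η → ∀ k : ℕ, (t ^ p ^ N) ^ k • η = η := by
    intro η hη k
    induction k with
    | zero => rw [pow_zero, one_smul]
    | succ k ih => rw [pow_succ, mul_smul, hη, ih]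
  refine ⟨fun η hη => ?_, fun q hq r hr => ?_, fun j T hT h4 => ?_⟩
  · rw [hpp]
    exact hfix η (h3 η hη) _
  · rw [hpp]
    have h4 : (t ^ p ^ N • r) ^ p ^ N - r ^ p ^ N = 0 := by
      rw [← smul_pw, hr, smul_nat, sub_self]
    rw [IsPrimitiveRoot.pow_sub_pow_eq_prod_sub_mul _ _ (Nat.pos_of_ne_zero hn.1) hζ,
      Finset.prod_eq_zero_iff] at h4
    obtain ⟨η, hη, h5⟩ := h4
    rw [Polynomial.mem_nthRootsFinset (Nat.pos_of_ne_zero hn.1)] at hη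
    rw [sub_eq_zero] at h5
    have h6 : ∀ k : ℕ, (t ^ p ^ N) ^ k • r = η ^ k * r := by
      intro k
      induction k with
      | zero => rw [pow_zero, one_smul, pow_zero, one_mul]
      | succ k ih =>
        rw [pow_succ', mul_smul, ih, smul_mul', smul_pw, h3 η hη, h5, pow_succ]
        ring
    rw [h6, hη, one_mul]
  · refine fix_pt hp (fun T hT h5 => ?_) _ T hT h4
    by_contra hT0
    refine (hA j).2 (frb_tors ⟨adp_good (hA j), hpw⟩ hp ht hT h5 hT0)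

/-- **Places with given properties.** -/
theorem dens_pow1 [Finite J] (hΔ : ∀ j, 4 * a j ^ 3 + 27 * b j ^ 2 ≠ 0) (hp : p.Prime)
    {v₀ : HeightOneSpectrum (𝓞 K)} (h₀ : Ideal.absNorm v₀.asIdeal % p = 1)
    (hA : ∀ j, Adp (a j) (b j) p v₀) (hpv : (p : 𝓞 K) ∉ v₀.asIdeal) (N : ℕ) (Q : Finset ℕ) :
    ∃ d : ℝ, 0 < d ∧ ∀ᶠ X : ℕ in atTop, d * Nat.primeCounting X ≤
      cnt {v : HeightOneSpectrum (𝓞 K) | (∀ j, Adp (a j) (b j) p v) ∧
        ∀ l : ℕ, l.Prime → Ideal.absNorm v.asIdeal = l →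
          (l : ZMod (p ^ N)) = 1 ∧ ∀ q ∈ Q, ∃ x : ZMod l, x ^ p ^ N = q} X := by
  classical
  have hn : NeZero (p ^ N) := ⟨pow_ne_zero _ hp.ne_zero⟩
  have hΔ' : ∀ j, 4 * (a j : K) ^ 3 + 27 * (b j : K) ^ 2 ≠ 0 := by
    intro j
    have h1 : algebraMap (𝓞 K) K (4 * a j ^ 3 + 27 * b j ^ 2) ≠ 0 := by
      rw [Ne, FaithfulSMul.algebraMap_eq_zero_iff]
      exact hΔ j
    intro h2
    apply h1
    rw [map_add, map_mul, map_mul, map_pow, map_pow, map_ofNat, map_ofNat]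
    exact h2
  obtain ⟨M, _, _, _, _, hG, hcard, ⟨ζ, hζ⟩, hroots⟩ := exists_big hΔ' hp.one_lt.le hn.1 Q
  obtain ⟨⟨w₀, hw₀⟩⟩ := exists_ab (F := M) v₀
  obtain ⟨t, ht⟩ := exists_frb (K := K) w₀
  have hS : Sg a b p (p ^ N) Q (t ^ p ^ (N + N)) :=
    Sg_pow1 hp ht (fun j => by rw [hw₀]; exact hA j) (by rw [hw₀]; exact hpv)
      (by rw [hw₀]; exact h₀) hζ
  obtain ⟨δ, hδ, hch⟩ := cheb_fin {s : M ≃ₐ[K] M | Sg a b p (p ^ N) Q s}
    (fun s hs t => Sg.conj hs t) ⟨_, hS⟩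
  set B : Set (HeightOneSpectrum (𝓞 K)) := (⋃ j, {v : HeightOneSpectrum (𝓞 K) |
    2 * (p : 𝓞 K) * (4 * a j ^ 3 + 27 * b j ^ 2) ∈ v.asIdeal}) ∪
      {v : HeightOneSpectrum (𝓞 K) | (p : 𝓞 K) ∈ v.asIdeal} with hB
  have hp0 : (p : 𝓞 K) ≠ 0 := by exact_mod_cast hp.ne_zero
  have hBf : B.Finite := (Set.finite_iUnion fun j => bad_finite (mul_ne_zero
    (mul_ne_zero two_ne_zero hp0) (hΔ j))).union (bad_finite hp0)
  refine ⟨δ / 2, half_pos hδ, cnt_rem hBf ?_ hδ hch⟩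
  rintro v ⟨w, hw, s, hs, hF⟩ hvB
  have hvp : (p : 𝓞 K) ∉ (lo (K := K) w).asIdeal := fun h => hvB (Or.inr (by rw [← hw]; exact h))
  have hnw : ((p ^ N : ℕ) : 𝓞 K) ∉ (lo (K := K) w).asIdeal := by
    rw [Nat.cast_pow]
    exact fun h => hvp ((lo (K := K) w).isPrime.mem_of_pow_mem _ h)
  refine ⟨fun j => ?_, fun l hl hvl => ?_⟩
  · have hg : 2 * (p : 𝓞 K) * (4 * a j ^ 3 + 27 * b j ^ 2) ∉ v.asIdeal :=
      fun h => hvB (Or.inl (Set.mem_iUnion.2 ⟨j, h⟩))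
    refine ⟨hg, ?_⟩
    rw [← hw]
    refine adp_frb1 ⟨fun h => hg ?_, hvp⟩ hp hF (hcard j) (hs.tors j)
    rw [hw] at h
    have e : 2 * (p : 𝓞 K) * (4 * a j ^ 3 + 27 * b j ^ 2) =
        (p : 𝓞 K) * (2 * (4 * a j ^ 3 + 27 * b j ^ 2)) := by ring
    rw [e]
    exact v.asIdeal.mul_mem_left _ h
  · have hfl : Fact l.Prime := ⟨hl⟩
    have hwl : Ideal.absNorm (lo (K := K) w).asIdeal = l := by rw [hw]; exact hvl
    constructor
    · have h1 := hF ζ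
      rw [hs.unity ζ hζ.pow_eq_one, hwl] at h1
      have h2 : ζ ^ 1 - ζ ^ l ∈ w.asIdeal := by rwa [pow_one]
      have h3 := pow_mod hζ hnw h2
      rw [← h3, Nat.cast_one]
    · intro q hq
      obtain ⟨r, hr⟩ := hroots q hq
      exact root_of_frb hwl hF (hs.root q hq r hr) hr

end dens

section split

variable {K F : Type} [Field K] [NumberField K] [Field F] [NumberField F]
  [Algebra K F] {m : ℕ} [NeZero m] [IsGalois K F]

/-- **Places which split completely.** -/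
theorem split_pow2 {ω : 𝓞 K} {t₀ n₀ : ℤ} (hB : Bs ω t₀ n₀) (C : Type) [Field C] [NumberField C]
    [Algebra K C] [Algebra F C] [IsScalarTower K F C] [IsCyclotomicExtension {m} K C]
    [IsGalois K C] {v : HeightOneSpectrum (𝓞 K)} (hvm : (m : 𝓞 K) ∉ v.asIdeal) {N : ℕ}
    (hexp : ∀ t : F ≃ₐ[K] F, t ^ 2 ^ N = 1) {x : ℕ}
    (hx : (x : ZMod m) ^ 2 ^ (N + 1) = (Ideal.absNorm v.asIdeal : ℕ))
    (hxm : ∀ v' ∈ pl K m, (x : 𝓞 K) ∉ v'.asIdeal) : Nonempty (F →ₐ[K] v.adicCompletion K) := by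
  obtain ⟨⟨u, hu⟩⟩ := exists_ab (F := F) v
  subst hu
  obtain ⟨⟨w, hw⟩⟩ := exists_ab (F := C) u
  obtain ⟨s, hs⟩ := exists_frb (K := K) w
  have hlo : lo (K := K) w = lo (K := K) u := by rw [← lo_lo (F := F), hw]
  have h6 := kc_frb (m := m) (C := C) (w := w) (by rw [hlo]; exact hvm) hs
  obtain ⟨t, ht⟩ := (ex_iff (C := C) hB).2 hxm
  have hnm : nm (x : 𝓞 K) = x ^ 2 := by
    unfold nm
    have h2 := absNorm_eq hB (x : 𝓞 K)
    have h3 := norm_int' hB (x : ℤ)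
    rw [Int.cast_natCast] at h3
    rw [h3] at h2
    exact_mod_cast h2
  have h7 : s = t ^ 2 ^ N := by
    apply kc_inj K C m
    apply Units.ext
    rw [map_pow, Units.val_pow_eq_pow_val, h6, ht, hnm, hlo, ← hx, pow_succ', pow_mul]
    push_cast
    ring
  have h10 : AlgEquiv.restrictNormalHom F s = 1 := by
    rw [h7, map_pow, hexp]
  have h11 := res_frb (F := F) hs
  rw [hw] at h11
  have h12 : s.restrictNormal F = 1 := h10
  rw [h12] at h11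
  exact emb_frb (in_cyc (m := m) C hvm) h11

end split

section fam

variable {K : Type} [Field K] [NumberField K] [IsPrincipalIdealRing (𝓞 K)] {σ : K →+* ℂ} {δ : K}
  {n : 𝓞 K} {c : Ideal (𝓞 K) → ℂ} {a b : 𝓞 K} {p : ℕ}

/-- **The set of prime numbers.** -/
theorem exists_set1 {ω : 𝓞 K} {t₀ n₀ : ℤ} (hB : Bs ω t₀ n₀) (hΔ : 4 * a ^ 3 + 27 * b ^ 2 ≠ 0)
    (hp : p.Prime)
    {l₀ : ℕ} (hl₀ : l₀.Prime) (h₀ : ∀ v : HeightOneSpectrum (𝓞 K), (l₀ : 𝓞 K) ∈ v.asIdeal →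
      Ideal.absNorm v.asIdeal % p = 1 ∧ Adp a b p v) (N : ℕ) :
    ∃ P : Set ℕ, (∃ d : ℝ, 0 < d ∧ ∀ᶠ X : ℕ in atTop, d * Nat.primeCounting X ≤
        {l : ℕ | l ≤ X ∧ l ∈ P}.ncard) ∧
      (∀ l ∈ P, l.Prime ∧ (l : ZMod (p ^ N)) = 1) ∧
      (∀ l ∈ P, ∀ v : HeightOneSpectrum (𝓞 K), (l : 𝓞 K) ∈ v.asIdeal → Adp a b p v) ∧
      ∀ l ∈ P, ∀ v : HeightOneSpectrum (𝓞 K),
        2 * (p : 𝓞 K) * (4 * a ^ 3 + 27 * b ^ 2) ∈ v.asIdeal →
        ∃ x : ZMod l, x ^ p ^ N = (Ideal.absNorm v.asIdeal : ℕ) := by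
  classical
  obtain ⟨τ, hτ1, hτ2, hτ3⟩ := exists_cj hB
  -- a place above l₀
  obtain ⟨v₀, hv₀⟩ : ∃ v : HeightOneSpectrum (𝓞 K), (l₀ : 𝓞 K) ∈ v.asIdeal := by
    have h1 : Ideal.span {(l₀ : 𝓞 K)} ≠ ⊤ := by
      intro h
      have h2 := absNorm_eq hB (l₀ : 𝓞 K)
      have h3 := norm_int' hB (l₀ : ℤ)
      rw [Int.cast_natCast] at h3
      rw [h3, h, Ideal.absNorm_top] at h2
      have h4 : l₀ ^ 2 = 1 := by exact_mod_cast h2.symm
      have h5 := hl₀.one_lt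
      nlinarith
    obtain ⟨M, hM, hle⟩ := Ideal.exists_le_maximal _ h1
    have h2 : (l₀ : 𝓞 K) ∈ M := hle (Ideal.mem_span_singleton_self _)
    refine ⟨⟨M, hM.isPrime, ?_⟩, h2⟩
    rintro rfl
    rw [Ideal.mem_bot] at h2
    exact hl₀.ne_zero (by exact_mod_cast h2)
  have hv₀' : (l₀ : 𝓞 K) ∈ (cjp τ hτ1 v₀).asIdeal := by
    rw [mem_cjp, map_natCast]
    exact hv₀
  have hΔ' : 4 * τ a ^ 3 + 27 * τ b ^ 2 ≠ 0 := by
    intro h
    apply hΔ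
    rw [← hτ1 (4 * a ^ 3 + 27 * b ^ 2)]
    have e1 : τ (4 * a ^ 3 + 27 * b ^ 2) = 4 * τ a ^ 3 + 27 * τ b ^ 2 := by
      simp only [map_mul, map_add, map_pow, map_ofNat]
    rw [e1, h, map_zero]
  have hp0 : (p : 𝓞 K) ≠ 0 := by exact_mod_cast hp.ne_zero
  set D : 𝓞 K := 2 * (p : 𝓞 K) * (4 * a ^ 3 + 27 * b ^ 2) with hD
  have hD0 : D ≠ 0 := mul_ne_zero (mul_ne_zero two_ne_zero hp0) hΔ
  set Q : Finset ℕ := (bad_finite hD0).toFinset.image fun v => Ideal.absNorm v.asIdeal with hQ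
  have hpv : (p : 𝓞 K) ∉ v₀.asIdeal := by
    intro h
    apply (h₀ v₀ hv₀).2.1
    have e : 2 * (p : 𝓞 K) * (4 * a ^ 3 + 27 * b ^ 2) =
        (2 * (4 * a ^ 3 + 27 * b ^ 2)) * (p : 𝓞 K) := by ring
    rw [e]
    exact v₀.asIdeal.mul_mem_left _ h
  obtain ⟨d, hd, hX⟩ := dens_pow1 (J := Bool) (a := fun i => if i then a else τ a)
    (b := fun i => if i then b else τ b) (by
      intro i
      cases i
      · exact hΔ'
      · exact hΔ) hp (h₀ v₀ hv₀).1 (by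
      intro i
      cases i
      · exact adp_cj.1 (h₀ _ hv₀').2
      · exact (h₀ v₀ hv₀).2) hpv N Q
  set X : Set (HeightOneSpectrum (𝓞 K)) := {v : HeightOneSpectrum (𝓞 K) |
    (∀ i : Bool, Adp (if i then a else τ a) (if i then b else τ b) p v) ∧
      ∀ l : ℕ, l.Prime → Ideal.absNorm v.asIdeal = l →
        (l : ZMod (p ^ N)) = 1 ∧ ∀ q ∈ Q, ∃ x : ZMod l, x ^ p ^ N = q} with hXd
  refine ⟨{l : ℕ | l.Prime ∧ ∃ v ∈ X, Ideal.absNorm v.asIdeal = l}, ⟨d / 4, by positivity,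
    dens_prm hB hd hX⟩, ?_, ?_, ?_⟩
  · rintro l ⟨hl, v, hv, hvl⟩
    exact ⟨hl, (hv.2 l hl hvl).1⟩
  · rintro l ⟨hl, v, hv, rfl⟩ v' hv'
    rcases above_l hB hτ1 hτ3 hv' with rfl | rfl
    · exact hv.1 true
    · exact adp_cj.2 (hv.1 false)
  · rintro l ⟨hl, v, hv, hvl⟩ v' hv'
    refine (hv.2 l hl hvl).2 _ ?_
    rw [hQ]
    exact Finset.mem_image_of_mem _ ((Set.Finite.mem_toFinset _).2 hv')

end fam

end Pool.Agent.T9h30.TP
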